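import Pool.Agent.Lib.MP_21ae8a_lc.BC.Main

/-!
Hidden all-ones corner: an explicit bound on the success probability of blackboard (broadcast)
protocols in which every player writes few bits.
-/

namespace Pool.Agent.Results.MP_21ae8a_lc.BroadcastProtocols

open Pool.Agent.Lib.MP_21ae8a_lc Pool.Agent.Lib.MP_21ae8a_lc.BC

theorem result (n k m r t : ℕ) (hk : 1 ≤ k)
    (h1 : 6 * (t + 1) * (r + 1) * 4 ^ (k * (t + 1) + t) * m ^ 2 ≤ n)
    (h2 : (7 * r + 3) * n * 4 ^ t ≤ 2 ^ (t * t)) (τ : Mats n k → Mats n k → Bool)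
    (hτ : IsBroadcastTest r τ) : successK m τ ≤ 1 / 2 + 2 / 2 ^ t :=
  main n k m r t hk h1 h2 τ hτ

end Pool.Agent.Results.MP_21ae8a_lc.BroadcastProtocols
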