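import Pool.Agent.Lib.MP_21ae8a_lc.MC.Neg

/-!
Hidden all-ones corner: an explicit bound on the success probability of circuits with few
negations and bounded depth.
-/

namespace Pool.Agent.Results.MP_21ae8a_lc.MonotoneCircuits

open Pool.Agent.Lib.MP_21ae8a_lc Pool.Agent.Lib.MP_21ae8a_lc.MC

theorem result (n m v T q s d b k : ℕ) (hm : 1 ≤ m) (hv : 2 ≤ v) (hq : 1 ≤ q)
    (hT : 16 ^ v * m ≤ T) (hn : q * (6 * v ^ 3 * (d + 1) * T) ^ 2 ≤ n) (τ : Test n)
    (hτ : IsCircuitTest s d b k τ) :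
    success m τ ≤ 1 / 2 + ((b : ℝ) + k) * 2 ^ (b + 1) * (2 / q + n * (5 / 6) ^ q +
      6 * v ^ 3 * (m / T + s * (2 ^ v * m / T) ^ (v + 1))) := by
  obtain ⟨σ, c, dp, val, o, ψ, hσ, hc, hb, hval, hτ⟩ := hτ
  have hmT : m ≤ T := le_trans (Nat.le_mul_of_pos_left _ (by positivity)) hT
  have hmn : m ≤ n := hmT.trans ((Nat.le_mul_of_pos_left T
    (show 0 < 6 * v ^ 3 * (d + 1) by positivity)).trans ((Nat.le_self_pow two_ne_zero _).trans
      ((Nat.le_mul_of_pos_left _ hq).trans hn)))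
  have : Nonempty (Fin n) := ⟨⟨0, by omega⟩⟩
  refine success_le hmn τ (fun y => ?_) fun y => ?_ <;> simp only [hτ]
  · refine dis_le hc hb hval o ψ (β := fun x p => xor (bits (modelA x) (modelA y) p) (σ p))
      (P := {e | σ (true, e.1.1, e.1.2) = false}) ?_ hv hq (by omega) hmn hn hT
    rintro ⟨_ | _, i, j⟩
    · exact .inl fun _ _ => rfl
    · exact entry_cases (fun i j => σ (true, i, j)) (hσ true) i j
  · refine dis_le hc hb hval o ψ (β := fun x p => xor (bits (modelA y) (modelA x) p) (σ p))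
      (P := {e | σ (false, e.1.1, e.1.2) = false}) ?_ hv hq (by omega) hmn hn hT
    rintro ⟨_ | _, i, j⟩
    · exact entry_cases (fun i j => σ (false, i, j)) (hσ false) i j
    · exact .inl fun _ _ => rfl

end Pool.Agent.Results.MP_21ae8a_lc.MonotoneCircuits
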