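import Pool.Agent.Lib.MP_21ae8a_lc.BC.BiMain

namespace Pool.Agent.Results.MP_21ae8a_lc.RowBroadcast

open Pool.Agent.Lib.MP_21ae8a_lc.BC

theorem result (n k m r t : ℕ) (hk : 1 ≤ k) (L : Finset (Fin n)) (hL : n ≤ 3 * L.card)
    (hL' : n ≤ 3 * Lᶜ.card) (h1 : 192 * (t + 1) ^ 2 * 4 ^ (k + 2 * t) * m ^ 2 ≤ n)
    (h1' : 48 * (r + t * t + 2) * 4 ^ (k * (t + 2)) * m ≤ n)
    (h2 : (9 * r + 1) * n * 4 ^ t ≤ 2 ^ (t * t)) (τ : Mats n k → Mats n k → Bool)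
    (hτ : IsRowTest L r τ) : successK m τ ≤ 1 / 2 + 2 / 2 ^ t :=
  main2 n k m r t hk L hL hL' h1 h1' h2 τ hτ

end Pool.Agent.Results.MP_21ae8a_lc.RowBroadcast
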