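import Pool.Agent.Lib.MP_21ae8a_lc.Layers

/-!
Hidden all-ones corner: an explicit bound on the success probability of every test that looks
at the signs of low-degree real polynomials of the gates of a bounded-depth AND/OR circuit.
-/

set_option autoImplicit false

namespace Pool.Agent.Results.MP_21ae8a_lc.ThresholdTests

open Pool.Agent.Lib.MP_21ae8a_lc

theorem result (n m d s D k t K : ℕ) (hm : 1 ≤ m) (hmn : m ≤ n) (hD : 1 ≤ D) (hk : 1 ≤ k)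
    (ht : 2 ≤ t) (hK : 2 ^ (9 * t ^ 2) ≤ K) (τ : Test n) (hτ : IsThresholdTest d s D k τ) :
    success m τ ≤ 1 / 2 +
      500000 * k * ((D * t.choose 2 : ℕ) : ℝ) ^ 3 *
        ((K : ℝ) ^ d * (m : ℝ) ^ 2 / n) ^ ((1 : ℝ) / (9 * (D * t.choose 2 : ℕ))) +
      2 * d * s * ((2 : ℝ) ^ (9 * t ^ 2) / K) ^ (t + 1) := by
  obtain ⟨D', hD'⟩ : ∃ D', D' = D * t.choose 2 := ⟨_, rfl⟩
  have hD1 : 1 ≤ D' := hD' ▸ Nat.mul_pos hD (Nat.choose_pos ht)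
  rw [← hD']
  have hK2 : 2 ≤ K := le_trans (Nat.le_self_pow (by positivity) 2) hK
  have hK2' : (2 : ℝ) ≤ K := by exact_mod_cast hK2
  have hn0 : (0 : ℝ) < n := by exact_mod_cast (show 0 < n by omega)
  have hk1 : (1 : ℝ) ≤ k := by exact_mod_cast hk
  have hD3 : (1 : ℝ) ≤ (D' : ℝ) ^ 3 := one_le_pow₀ (by exact_mod_cast hD1)
  obtain ⟨ρ, hρ⟩ : ∃ ρ : ℝ, ρ = (K : ℝ) ^ d * (m : ℝ) ^ 2 / n := ⟨_, rfl⟩
  have hρ0 : 0 < ρ := by rw [hρ]; positivity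
  obtain ⟨y, hy⟩ : ∃ y : ℝ, y = ρ ^ (((9 * D' : ℕ) : ℝ)⁻¹) := ⟨_, rfl⟩
  have hy0 : 0 < y := hy ▸ Real.rpow_pos_of_pos hρ0 _
  have hy1 : y ^ (9 * D') = ρ := by
    rw [hy, Real.rpow_inv_natCast_pow hρ0.le (by omega)]
  have hy2 : ρ ^ ((1 : ℝ) / (9 * (D' : ℕ))) = y := by
    rw [hy, one_div]
    push_cast
    rfl
  rw [← hρ, hy2]
  obtain ⟨β, hβ⟩ : ∃ β : ℝ, β = (2 : ℝ) ^ (9 * t ^ 2) / K := ⟨_, rfl⟩
  rw [← hβ]
  have hβ0 : 0 < β := by rw [hβ]; positivity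
  by_cases hc : 1 / 36 < y
  · have h1 := success_le hmn τ (fun _ => dis_le_one _ _ _) fun _ => dis_le_one _ _ _
    have h2 : (0 : ℝ) ≤ 2 * d * s * β ^ (t + 1) := by positivity
    have h3 : 500000 * 1 * 1 * (1 / 36) ≤ 500000 * k * (D' : ℝ) ^ 3 * y := by gcongr
    linarith
  have hx : 1 ≤ 1 / (36 * y) := by
    rw [one_le_div (by positivity)]
    linarith
  have hp1 : 1 ≤ ⌊1 / (36 * y)⌋₊ := Nat.one_le_floor_iff _ |>.2 hx
  have hp2 : (⌊1 / (36 * y)⌋₊ : ℝ) ≤ 1 / (36 * y) := Nat.floor_le (by positivity)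
  have hp3 : 1 / (36 * y) < ⌊1 / (36 * y)⌋₊ + 1 := Nat.lt_floor_add_one _
  generalize ⌊1 / (36 * y)⌋₊ = p at hp1 hp2 hp3
  have hp1' : (1 : ℝ) ≤ p := by exact_mod_cast hp1
  have hn : K ^ d * ((36 * p) ^ (9 * D') * m ^ 2) ≤ n := by
    have h1 : (36 * p * y : ℝ) ^ (9 * D') ≤ 1 := by
      refine pow_le_one₀ (by positivity) ?_
      rw [le_div_iff₀ (by positivity)] at hp2
      linarith
    rw [mul_pow, hy1, hρ, ← mul_div_assoc, div_le_one hn0] at h1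
    exact_mod_cast (show (K : ℝ) ^ d * ((36 * p) ^ (9 * D') * m ^ 2) ≤ n by linarith)
  have hβ1 : β ≤ 1 := by
    rw [hβ, div_le_one (by positivity)]
    exact_mod_cast hK
  have hΓ : 2 * (2 ^ t * 4 ^ (2 * t) ^ 2) ≤ β * (K - 1) := by
    have h1 : (4 : ℝ) * (2 ^ t * 4 ^ (2 * t) ^ 2) ≤ 2 ^ (9 * t ^ 2) := by
      rw [show (4 : ℝ) = 2 ^ 2 by norm_num, ← pow_mul, ← pow_add, ← pow_add]
      exact pow_le_pow_right₀ (by norm_num) (by nlinarith)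
    have h2 : (0 : ℝ) ≤ 2 ^ t * 4 ^ (2 * t) ^ 2 := by positivity
    rw [hβ, div_mul_eq_mul_div, le_div_iff₀ (by positivity)]
    nlinarith
  refine (main_bound hD ht hm hp1 (by omega) hβ0 hβ1 hΓ (hD' ▸ hn) τ hτ).trans ?_
  rw [← hD']
  have h1 : (6606 : ℝ) * (D' : ℝ) ^ 3 / p ≤ 500000 * (D' : ℝ) ^ 3 * y := by
    have h2 : 1 ≤ 72 * (y * p) := by
      rw [div_lt_iff₀ (by positivity)] at hp3
      nlinarith
    rw [div_le_iff₀ (by positivity), mul_assoc]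
    nlinarith
  have h2 := mul_le_mul_of_nonneg_left h1 (show (0 : ℝ) ≤ k by positivity)
  linarith

end Pool.Agent.Results.MP_21ae8a_lc.ThresholdTests
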